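import Mathlib
import Pool.Agent.Helper75.Defs
import Pool.Agent.Helper75.Basic
import Pool.Agent.Helper75.LacDefs
import Pool.Agent.Helper75.Four
import Pool.Agent.Helper75.FourMain

namespace Pool.Agent.Results.MP_0f2eae_al.NotNormal04

open Pool.Agent.Helper75.Defs Pool.Agent.Helper75.Basic Pool.Agent.Helper75.LacDefs
  Pool.Agent.Helper75.Four

/-- Sanity check: the profinite power is a genuine limit. -/
theorem ppow_is_limit (g n : ℕ) (a : PiHat g n) (l : Zhat) : Filter.Tendsto
    (fun k : ℕ => a ^ res l ⟨k.factorial, k.factorial_pos⟩) Filter.atTop (nhds (ppow a l)) :=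
  tendsto_ppow a l

/-- Sanity check: every inner automorphism lies in `AutLac`, hence in `InnLac`. -/
theorem exists_inner (g n : ℕ) (a : PiHat g n) :
    ∃ φ ∈ InnLac g n, ∀ b, φ.toFun b = a * b * a⁻¹ :=
  ⟨AutLac.conj a, ⟨a, fun _ => rfl⟩, fun _ => rfl⟩

/-- Sanity check: `LacOne` is the case `λ = 1` of `LacWith`. -/
theorem lacOne_iff (g n : ℕ) (f : PiHat g n → PiHat g n) : LacOne f ↔ LacWith 1 f :=
  ⟨LacOne.with, LacWith.one⟩

/-- Sanity check: the exponent `λ` of an automorphism of the profinite completion of `π_{0,4}`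
is unique, that is, the cyclotomic character is well defined. -/
theorem exponent_unique (φ : PiHat 0 4 → PiHat 0 4) (l l' : Zhat) (h : LacWith l φ)
    (h' : LacWith l' φ) : l = l' := by
  obtain ⟨σ, a, ha⟩ := h
  obtain ⟨σ', a', ha'⟩ := h'
  apply Subtype.ext
  funext n
  have hn : NeZero (n : ℕ) := ⟨n.pos.ne'⟩
  let A : Type := Multiplicative (ZMod n × ZMod n × ZMod n)
  let q : Fin 4 → A := ![Multiplicative.ofAdd (1, 0, 0), Multiplicative.ofAdd (0, 1, 0),
    Multiplicative.ofAdd (0, 0, 1), Multiplicative.ofAdd (-1, -1, -1)]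
  obtain ⟨E, hE, hEo⟩ := P4_lift_finite (H := A) q (by
    show Multiplicative.ofAdd (((1, 0, 0) + (0, 1, 0) + (0, 0, 1) + (-1, -1, -1) :
      ZMod n × ZMod n × ZMod n)) = 1
    simp)
  have hpow : ∀ x : A, x ^ (n : ℕ) = 1 := by
    intro x
    show Multiplicative.ofAdd ((n : ℕ) • x.toAdd) = 1
    have h3 : (n : ℕ) • x.toAdd = 0 := by
      ext <;> simp
    rw [h3]
    rfl
  have h1 : E (φ (ell 0)) = q (σ 0) ^ res l n := by
    have h2 : φ (ell 0) = a 0 * ppow (ell (σ 0)) l * (a 0)⁻¹ := ha 0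
    rw [h2, map_mul, map_mul, map_inv, mul_comm (E (a 0)), mul_assoc, mul_inv_cancel, mul_one,
      fin_ppow E hEo _ _ n (hpow _), hE]
  have h2 : E (φ (ell 0)) = q (σ' 0) ^ res l' n := by
    have h2 : φ (ell 0) = a' 0 * ppow (ell (σ' 0)) l' * (a' 0)⁻¹ := ha' 0
    rw [h2, map_mul, map_mul, map_inv, mul_comm (E (a' 0)), mul_assoc, mul_inv_cancel, mul_one,
      fin_ppow E hEo _ _ n (hpow _), hE]
  rw [h1] at h2
  have h3 := congrArg Multiplicative.toAdd h2
  rw [toAdd_pow, toAdd_pow] at h3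
  have h4 : (res l n : ZMod n) = l.1 n := ZMod.natCast_zmod_val _
  have h5 : (res l' n : ZMod n) = l'.1 n := ZMod.natCast_zmod_val _
  rw [← h4, ← h5]
  clear h4 h5 h1 h2 ha ha'
  generalize σ 0 = i at h3
  generalize σ' 0 = j at h3
  generalize (res l n) = m at h3 ⊢
  generalize (res l' n) = m' at h3 ⊢
  have hq0 : (q 0).toAdd = (1, 0, 0) := rfl
  have hq1 : (q 1).toAdd = (0, 1, 0) := rfl
  have hq2 : (q 2).toAdd = (0, 0, 1) := rfl
  have hq3 : (q 3).toAdd = (-1, -1, -1) := rfl
  have key : ∀ i j : Fin 4, m • (q i).toAdd = m' • (q j).toAdd → (m : ZMod n) = (m' : ZMod n) := by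
    intro i j h
    fin_cases i <;> fin_cases j <;>
    simp only [Fin.zero_eta, Fin.mk_one, Fin.reduceFinMk, hq0, hq1, hq2, hq3] at h <;>
    simp only [Prod.smul_mk, Prod.mk.injEq, nsmul_eq_mul, mul_one, mul_zero, mul_neg] at h <;>
    obtain ⟨e1, e2, e3⟩ := h <;>
    first
      | linear_combination e1
      | linear_combination e2
      | linear_combination e3
      | linear_combination e1 + e2
      | linear_combination e1 + e3
      | linear_combination e2 + e3
      | linear_combination e1 - 2 * e2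
      | linear_combination e2 - 2 * e1
      | linear_combination e3 - 2 * e1
  exact key i j h3

/-- The group `𝔗̂⁺_{0,4}` is not normal in `𝕋_{0,4}`. -/
theorem result : ¬ (TPlus 0 4).Normal :=
  Pool.Agent.Helper75.FourMain.not_normal

end Pool.Agent.Results.MP_0f2eae_al.NotNormal04
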