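import Mathlib
import Pool.Agent.Helper75.Defs
import Pool.Agent.Helper75.Basic
import Pool.Agent.Helper75.LacDefs
import Pool.Agent.Helper75.PureDefs
import Pool.Agent.Helper75.PureMain

namespace Pool.Agent.Results.MP_0f2eae_al.NotNormalNumbered04

open Pool.Agent.Helper75.Defs Pool.Agent.Helper75.Basic Pool.Agent.Helper75.PureDefs
open Pool.Agent.Helper75.LacDefs (PiHat)

/-- Sanity check: the profinite power is a genuine limit. -/
theorem ppow_is_limit (g n : ℕ) (a : PiHat g n) (l : Zhat) : Filter.Tendsto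
    (fun k : ℕ => a ^ res l ⟨k.factorial, k.factorial_pos⟩) Filter.atTop (nhds (ppow a l)) :=
  tendsto_ppow a l

/-- Sanity check: every inner automorphism lies in `PAutLac`, hence in `PInnLac`. -/
theorem exists_inner (g n : ℕ) (a : PiHat g n) :
    ∃ φ ∈ PInnLac g n, ∀ b, φ.toFun b = a * b * a⁻¹ :=
  ⟨PAutLac.conj a, ⟨a, fun _ => rfl⟩, fun _ => rfl⟩

/-- Sanity check: `PLacOne` is the case `λ = 1` of `PLacWith`. -/
theorem pLacOne_iff (g n : ℕ) (f : PiHat g n → PiHat g n) : PLacOne f ↔ PLacWith 1 f :=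
  ⟨PLacOne.with, PLacWith.one⟩

/-- With numbered punctures: the group `𝔗̂⁺_{0,4}` is not normal in `𝕋_{0,4}`. -/
theorem result : ¬ (PTPlus 0 4).Normal :=
  Pool.Agent.Helper75.PureMain.not_normal

end Pool.Agent.Results.MP_0f2eae_al.NotNormalNumbered04
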